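import Pool.Agent.Helper59.ZS.Level
import Pool.Agent.Helper37.KF.Stmts

/-!
# Komlos problem, module 14: level selection with general weights outside `V`
-/

namespace Pool.Agent.Helper87.KF

open Finset Pool.Agent.Helper38.ZS Pool.Agent.Helper59.ZS
open scoped Classical

noncomputable section

theorem level (ι : Type) [Fintype ι] (V : Finset ι) (f ξ w : ι → ℝ) (β : ℝ)
    (hβ : 0 < β) (hβ1 : β ≤ 1) (hw : ∀ i, 0 ≤ w i) (hξ : ∀ i ∈ V, |ξ i| ≤ 1)
    (H : β * l1 f V + ∑ i ∈ Vᶜ, w i * |f i| < ∑ i ∈ V, ξ i * f i) :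
    ∃ s : ℝ, 0 < s ∧ 0 < ∑ i ∈ V, |TT (s * f i)| ∧
      β / 2 * ∑ i ∈ V, |TT (s * f i)| < ∑ i ∈ V, ξ i * TT (s * f i) ∧
      ∀ h : ℤ, (2 : ℝ) ^ h * (β * (#(V.filter (fun i => (2 : ℝ) ^ (h + 1) ≤ |s * f i|)) : ℝ)
          + ∑ i ∈ Vᶜ.filter (fun i => (2 : ℝ) ^ (h + 1) ≤ |s * f i|), w i)
        ≤ 4 * (2 / (1 - qq)) * (2 : ℝ) ^ (|(h : ℝ)| / 40) * ∑ i ∈ V, |TT (s * f i)| := by
  have hp : 0 < 1 - qq := by linarith [qq_lt]
  have hW : 2 ≤ 2 / (1 - qq) := by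
    rw [le_div_iff₀ hp]
    linarith [qq_pos]
  have hwf0 : 0 ≤ ∑ i ∈ Vᶜ, w i * |f i| :=
    Finset.sum_nonneg (fun i _ => mul_nonneg (hw i) (abs_nonneg _))
  have hlV : 0 < l1 f V := by
    by_contra hcon
    have h0 : 0 ≤ l1 f V := Finset.sum_nonneg (fun i _ => abs_nonneg (f i))
    have h2 : ∑ i ∈ V, ξ i * f i ≤ l1 f V := by
      unfold l1
      apply Finset.sum_le_sum
      intro i hi
      have h3 : |ξ i * f i| ≤ 1 * |f i| := by
        rw [abs_mul]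
        exact mul_le_mul_of_nonneg_right (hξ i hi) (abs_nonneg _)
      linarith [le_abs_self (ξ i * f i)]
    have h4 : l1 f V = 0 := by linarith [not_lt.mp hcon]
    rw [h4] at H h2
    linarith
  obtain ⟨δ, hδ, hmin⟩ := min_pos f
  obtain ⟨M, hM⟩ := max_bd f
  -- the lowest level
  obtain ⟨j0, hj1, hj2⟩ : ∃ j0 : ℤ, (2 : ℝ) ^ (j0 + 1) ≤ δ ∧
      (2 : ℝ) ^ j0 * (#V : ℝ) ≤ β / 4 * l1 f V := by
    obtain ⟨n, hn⟩ := exists_pow_lt_of_lt_one
      (lt_min (by positivity : 0 < δ / 2)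
        (by positivity : 0 < β / 4 * l1 f V / ((#V : ℝ) + 1))) (by norm_num : (1 / 2 : ℝ) < 1)
    have e : (2 : ℝ) ^ (-(n : ℤ)) = (1 / 2 : ℝ) ^ n := by
      rw [zpow_neg, zpow_natCast, one_div, inv_pow]
    refine ⟨-(n : ℤ), ?_, ?_⟩
    · rw [zpow_add_one₀ (by norm_num : (2 : ℝ) ≠ 0), e]
      have := hn.trans_le (min_le_left _ _)
      linarith
    · rw [e]
      have h1 := hn.trans_le (min_le_right _ _)
      have h2 : 0 ≤ (#V : ℝ) := by positivity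
      rw [lt_div_iff₀ (by positivity)] at h1
      have h3 : 0 < (1 / 2 : ℝ) ^ n := by positivity
      nlinarith
  -- the number of levels
  obtain ⟨N, hN⟩ : ∃ N : ℕ, M < (2 : ℝ) ^ (j0 + N) := by
    have hz : (0 : ℝ) < (2 : ℝ) ^ j0 := by positivity
    obtain ⟨N, hN⟩ := pow_unbounded_of_one_lt (M / (2 : ℝ) ^ j0) (by norm_num : (1 : ℝ) < 2)
    refine ⟨N, ?_⟩
    rw [div_lt_iff₀ hz] at hN
    rw [zpow_add₀ (by norm_num : (2 : ℝ) ≠ 0), zpow_natCast, mul_comm]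
    exact hN
  have hMN : ∀ i, |f i| < (2 : ℝ) ^ (j0 + N) := fun i => (hM i).trans_lt hN
  obtain ⟨a, ha⟩ : ∃ a : ℕ → ℝ, a = fun (k : ℕ) => ∑ i ∈ V, |Tj (j0 + k) (f i)| := ⟨_, rfl⟩
  obtain ⟨b, hb⟩ : ∃ b : ℕ → ℝ, b = fun (k : ℕ) => ∑ i ∈ Vᶜ, w i * |Tj (j0 + k) (f i)| :=
    ⟨_, rfl⟩
  obtain ⟨x, hx⟩ : ∃ x : ℕ → ℝ, x = fun (k : ℕ) => ∑ i ∈ V, ξ i * Tj (j0 + k) (f i) := ⟨_, rfl⟩
  have ha0 : ∀ k, 0 ≤ a k := by
    intro k
    rw [ha]
    exact Finset.sum_nonneg (fun i _ => abs_nonneg _)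
  have hb0 : ∀ k, 0 ≤ b k := by
    intro k
    rw [hb]
    exact Finset.sum_nonneg (fun i _ => mul_nonneg (hw i) (abs_nonneg _))
  have hxa : ∀ k, x k ≤ a k := by
    intro k
    rw [hx, ha]
    apply Finset.sum_le_sum
    intro i hi
    have h3 : |ξ i * Tj (j0 + k) (f i)| ≤ 1 * |Tj (j0 + k) (f i)| := by
      rw [abs_mul]
      exact mul_le_mul_of_nonneg_right (hξ i hi) (abs_nonneg _)
    linarith [le_abs_self (ξ i * Tj (j0 + k) (f i))]
  have hsa : ∑ k ∈ Finset.range N, a k ≤ l1 f V := by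
    rw [ha]
    rw [Finset.sum_comm]
    unfold l1
    apply Finset.sum_le_sum
    intro i _
    exact Tj_sum_abs j0 N (f i)
  have hsb : ∑ k ∈ Finset.range N, b k ≤ ∑ i ∈ Vᶜ, w i * |f i| := by
    rw [hb]
    rw [Finset.sum_comm]
    apply Finset.sum_le_sum
    intro i _
    rw [← Finset.mul_sum]
    exact mul_le_mul_of_nonneg_left (Tj_sum_abs j0 N (f i)) (hw i)
  have hsx : ∑ i ∈ V, ξ i * f i ≤ β / 4 * l1 f V + ∑ k ∈ Finset.range N, x k := by
    rw [hx]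
    rw [Finset.sum_comm]
    have h1 : ∀ i ∈ V, ξ i * f i
        ≤ (2 : ℝ) ^ j0 + ∑ k ∈ Finset.range N, ξ i * Tj (j0 + k) (f i) := by
      intro i hi
      rw [← Finset.mul_sum, Tj_sum, cl_of_abs_le ((2 : ℝ) ^ (j0 + N)) (f i) (hMN i).le]
      have hpj : (0 : ℝ) < (2 : ℝ) ^ j0 := by positivity
      have h2 : |cl ((2 : ℝ) ^ j0) (f i)| ≤ (2 : ℝ) ^ j0 := by
        unfold cl
        rw [abs_le]
        exact ⟨le_max_left _ _, max_le (by linarith) (min_le_right _ _)⟩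
      have h3 : |ξ i * cl ((2 : ℝ) ^ j0) (f i)| ≤ 1 * (2 : ℝ) ^ j0 := by
        rw [abs_mul]
        exact mul_le_mul (hξ i hi) h2 (abs_nonneg _) (by norm_num)
      have h4 := le_abs_self (ξ i * cl ((2 : ℝ) ^ j0) (f i))
      have h5 : ξ i * (f i - cl ((2 : ℝ) ^ j0) (f i))
          = ξ i * f i - ξ i * cl ((2 : ℝ) ^ j0) (f i) := by ring
      rw [h5]
      linarith
    have h2 := Finset.sum_le_sum h1
    rw [Finset.sum_add_distrib, Finset.sum_const, nsmul_eq_mul] at h2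
    linarith [mul_comm (#V : ℝ) ((2 : ℝ) ^ j0)]
  -- selection
  obtain ⟨A, hA⟩ : ∃ A : ℕ → ℝ, A = fun (k : ℕ) => if β / 2 * a k < x k then a k else 0 := ⟨_, rfl⟩
  have hAx : ∀ k, x k ≤ A k + β / 2 * a k := by
    intro k
    rw [hA]
    by_cases h : β / 2 * a k < x k
    · simp only [h, if_true]
      have := ha0 k
      have := hxa k
      have : 0 ≤ β / 2 * a k := by positivity
      linarith
    · simp only [h, if_false]
      linarith [not_lt.mp h]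
  obtain ⟨l, hl, hsel⟩ := select qq qq_pos qq_lt N A (fun k => β / 4 * a k + b k)
    (fun k _ => by
      have := ha0 k
      have := hb0 k
      positivity)
    (by
      have h1 : ∑ k ∈ Finset.range N, x k
          ≤ ∑ k ∈ Finset.range N, A k + β / 2 * ∑ k ∈ Finset.range N, a k := by
        rw [Finset.mul_sum, ← Finset.sum_add_distrib]
        exact Finset.sum_le_sum (fun k _ => hAx k)
      rw [Finset.sum_add_distrib, ← Finset.mul_sum]
      have h2 : β * ∑ k ∈ Finset.range N, a k ≤ β * l1 f V :=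
        mul_le_mul_of_nonneg_left hsa hβ.le
      nlinarith)
  have hterm : ∀ k ∈ Finset.range N, 0 ≤ (β / 4 * a k + b k)
      * qq ^ ((l : ℤ) - (k : ℤ)).natAbs := by
    intro k _
    have := ha0 k
    have := hb0 k
    have := qq_pos
    positivity
  have hAl : 0 < A l := by
    have h1 : 0 ≤ ∑ k ∈ Finset.range N, (β / 4 * a k + b k)
      * qq ^ ((l : ℤ) - (k : ℤ)).natAbs := Finset.sum_nonneg hterm
    have h2 : 0 < 2 / (1 - qq) * A l := lt_of_le_of_lt h1 hsel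
    by_contra hcon
    have : 2 / (1 - qq) * A l ≤ 0 :=
      mul_nonpos_of_nonneg_of_nonpos (by linarith) (not_lt.mp hcon)
    linarith
  have hAal : A l = a l ∧ β / 2 * a l < x l := by
    have h0 : A l = if β / 2 * a l < x l then a l else 0 := by rw [hA]
    by_cases h : β / 2 * a l < x l
    · rw [if_pos h] at h0
      exact ⟨h0, h⟩
    · rw [if_neg h] at h0
      linarith
  obtain ⟨hA1, hA2⟩ := hAal
  rw [hA1] at hAl hsel
  -- rescaling
  obtain ⟨u, hu⟩ : ∃ u : ℤ, u = j0 + l := ⟨_, rfl⟩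
  obtain ⟨s, hs⟩ : ∃ s : ℝ, s = (2 : ℝ) ^ (-u) := ⟨_, rfl⟩
  have hs0 : 0 < s := by
    rw [hs]
    positivity
  have hsT : ∀ i, TT (s * f i) = s * Tj u (f i) := by
    intro i
    unfold Tj
    rw [hs, ← mul_assoc, ← zpow_add₀ (by norm_num : (2 : ℝ) ≠ 0)]
    simp
  have hm : ∑ i ∈ V, |TT (s * f i)| = s * a l := by
    rw [ha]
    simp only
    rw [Finset.mul_sum]
    apply Finset.sum_congr rfl
    intro i _
    rw [hsT, abs_mul, abs_of_pos hs0, hu]
  have hmx : ∑ i ∈ V, ξ i * TT (s * f i) = s * x l := by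
    rw [hx]
    simp only
    rw [Finset.mul_sum]
    apply Finset.sum_congr rfl
    intro i _
    rw [hsT, hu]
    ring
  refine ⟨s, hs0, ?_, ?_, ?_⟩
  · rw [hm]
    positivity
  · rw [hm, hmx]
    have := mul_lt_mul_of_pos_left hA2 hs0
    linarith
  -- the key estimate at the levels `j0 + k`, `k < N`
  have key : ∀ k ∈ Finset.range N, ∀ h : ℤ, j0 + k = u + h →
      (2 : ℝ) ^ h * (β * (#(V.filter (fun i => (2 : ℝ) ^ (h + 1) ≤ |s * f i|)) : ℝ)
          + ∑ i ∈ Vᶜ.filter (fun i => (2 : ℝ) ^ (h + 1) ≤ |s * f i|), w i)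
        ≤ 4 * (2 / (1 - qq)) * (2 : ℝ) ^ (|(h : ℝ)| / 40) * (s * a l) := by
    intro k hk h hkh
    have hset : ∀ i, (2 : ℝ) ^ (h + 1) ≤ |s * f i| → (2 : ℝ) ^ (j0 + k + 1) ≤ |f i| := by
      intro i hi
      rw [abs_mul, abs_of_pos hs0] at hi
      have e1 : (2 : ℝ) ^ (h + 1) = s * (2 : ℝ) ^ (j0 + k + 1) := by
        rw [hs, ← zpow_add₀ (by norm_num : (2 : ℝ) ≠ 0)]
        congr 1
        omega
      rw [e1] at hi
      exact le_of_mul_le_mul_left hi hs0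
    have c1 : (2 : ℝ) ^ (j0 + k)
        * (#(V.filter (fun i => (2 : ℝ) ^ (h + 1) ≤ |s * f i|)) : ℝ) ≤ a k := by
      have h1 : ∑ i ∈ V.filter (fun i => (2 : ℝ) ^ (h + 1) ≤ |s * f i|), (2 : ℝ) ^ (j0 + k)
          ≤ ∑ i ∈ V.filter (fun i => (2 : ℝ) ^ (h + 1) ≤ |s * f i|), |Tj (j0 + k) (f i)| := by
        apply Finset.sum_le_sum
        intro i hi
        rw [Tj_big _ _ (hset i (Finset.mem_filter.mp hi).2)]
      rw [Finset.sum_const, nsmul_eq_mul] at h1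
      have h2 : ∑ i ∈ V.filter (fun i => (2 : ℝ) ^ (h + 1) ≤ |s * f i|), |Tj (j0 + k) (f i)|
          ≤ ∑ i ∈ V, |Tj (j0 + k) (f i)| := by
        apply Finset.sum_le_sum_of_subset_of_nonneg (Finset.filter_subset _ _)
        intro i _ _
        exact abs_nonneg _
      have ea : ∑ i ∈ V, |Tj (j0 + k) (f i)| = a k := by rw [ha]
      rw [ea] at h2
      linarith [mul_comm ((2 : ℝ) ^ (j0 + k))
        (#(V.filter (fun i => (2 : ℝ) ^ (h + 1) ≤ |s * f i|)) : ℝ)]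
    have c2 : (2 : ℝ) ^ (j0 + k)
        * ∑ i ∈ Vᶜ.filter (fun i => (2 : ℝ) ^ (h + 1) ≤ |s * f i|), w i ≤ b k := by
      rw [Finset.mul_sum]
      have h1 : ∑ i ∈ Vᶜ.filter (fun i => (2 : ℝ) ^ (h + 1) ≤ |s * f i|), (2 : ℝ) ^ (j0 + k) * w i
          ≤ ∑ i ∈ Vᶜ.filter (fun i => (2 : ℝ) ^ (h + 1) ≤ |s * f i|), w i * |Tj (j0 + k) (f i)| := by
        apply Finset.sum_le_sum
        intro i hi
        rw [Tj_big _ _ (hset i (Finset.mem_filter.mp hi).2), mul_comm]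
      have h2 : ∑ i ∈ Vᶜ.filter (fun i => (2 : ℝ) ^ (h + 1) ≤ |s * f i|), w i * |Tj (j0 + k) (f i)|
          ≤ ∑ i ∈ Vᶜ, w i * |Tj (j0 + k) (f i)| := by
        apply Finset.sum_le_sum_of_subset_of_nonneg (Finset.filter_subset _ _)
        intro i _ _
        exact mul_nonneg (hw i) (abs_nonneg _)
      have eb : ∑ i ∈ Vᶜ, w i * |Tj (j0 + k) (f i)| = b k := by rw [hb]
      rw [eb] at h2
      linarith
    have h3 := Finset.single_le_sum hterm hk
    have h4 : (β / 4 * a k + b k) * qq ^ ((l : ℤ) - (k : ℤ)).natAbs < 2 / (1 - qq) * a l :=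
      lt_of_le_of_lt h3 hsel
    have e2 : ((l : ℤ) - (k : ℤ)).natAbs = h.natAbs := by omega
    rw [e2] at h4
    have h5 : 0 < (2 : ℝ) ^ (|(h : ℝ)| / 40) := Real.rpow_pos_of_pos (by norm_num) _
    have h6 : β / 4 * a k + b k ≤ 2 / (1 - qq) * a l * (2 : ℝ) ^ (|(h : ℝ)| / 40) := by
      have e3 : β / 4 * a k + b k
          = (β / 4 * a k + b k) * qq ^ h.natAbs * (2 : ℝ) ^ (|(h : ℝ)| / 40) := by
        rw [mul_assoc, qq_pow, mul_one]
      rw [e3]
      exact mul_le_mul_of_nonneg_right h4.le h5.le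
    have e4 : (2 : ℝ) ^ h = s * (2 : ℝ) ^ (j0 + k) := by
      rw [hs, ← zpow_add₀ (by norm_num : (2 : ℝ) ≠ 0)]
      congr 1
      omega
    rw [e4]
    have h7 : β * ((2 : ℝ) ^ (j0 + k)
          * (#(V.filter (fun i => (2 : ℝ) ^ (h + 1) ≤ |s * f i|)) : ℝ)) ≤ β * a k :=
      mul_le_mul_of_nonneg_left c1 hβ.le
    have h9 := hb0 k
    calc s * (2 : ℝ) ^ (j0 + k) * (β * (#(V.filter (fun i => (2 : ℝ) ^ (h + 1) ≤ |s * f i|)) : ℝ)
          + ∑ i ∈ Vᶜ.filter (fun i => (2 : ℝ) ^ (h + 1) ≤ |s * f i|), w i)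
        = s * (β * ((2 : ℝ) ^ (j0 + k)
          * (#(V.filter (fun i => (2 : ℝ) ^ (h + 1) ≤ |s * f i|)) : ℝ))
          + (2 : ℝ) ^ (j0 + k)
          * ∑ i ∈ Vᶜ.filter (fun i => (2 : ℝ) ^ (h + 1) ≤ |s * f i|), w i) := by ring
      _ ≤ s * (4 * (β / 4 * a k + b k)) := by
        apply mul_le_mul_of_nonneg_left _ hs0.le
        linarith
      _ ≤ s * (4 * (2 / (1 - qq) * a l * (2 : ℝ) ^ (|(h : ℝ)| / 40))) := by
        apply mul_le_mul_of_nonneg_left _ hs0.le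
        linarith
      _ = _ := by ring
  intro h
  rw [hm]
  have hal0 : 0 ≤ s * a l := by positivity
  have hw0 : ∀ X : Finset ι, 0 ≤ ∑ i ∈ X, w i := fun X => Finset.sum_nonneg (fun i _ => hw i)
  rcases lt_trichotomy (u + h) j0 with hc | hc | hc
  · -- below the lowest level
    have hu0 : j0 ≤ u := by
      rw [hu]
      have : (0 : ℤ) ≤ (l : ℤ) := Int.natCast_nonneg l
      omega
    have hN0 : 0 < N := by
      have := Finset.mem_range.mp hl
      omega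
    have h1 := key 0 (Finset.mem_range.mpr hN0) (j0 - u) (by push_cast; ring)
    have hsub : ∀ X : Finset ι, X.filter (fun i => (2 : ℝ) ^ (h + 1) ≤ |s * f i|)
        ⊆ X.filter (fun i => (2 : ℝ) ^ (j0 - u + 1) ≤ |s * f i|) := by
      intro X i hi
      rw [Finset.mem_filter] at hi ⊢
      refine ⟨hi.1, ?_⟩
      have hp2 : (0 : ℝ) < (2 : ℝ) ^ (h + 1) := by positivity
      have hf0 : f i ≠ 0 := by
        intro h0
        have := hi.2
        rw [h0, mul_zero, abs_zero] at this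
        linarith
      have h2 := hj1.trans (hmin i hf0)
      rw [abs_mul, abs_of_pos hs0]
      have e1 : (2 : ℝ) ^ (j0 - u + 1) = s * (2 : ℝ) ^ (j0 + 1) := by
        rw [hs, ← zpow_add₀ (by norm_num : (2 : ℝ) ≠ 0)]
        congr 1
        ring
      rw [e1]
      exact mul_le_mul_of_nonneg_left h2 hs0.le
    have hcard : (#(V.filter (fun i => (2 : ℝ) ^ (h + 1) ≤ |s * f i|)) : ℝ)
        ≤ (#(V.filter (fun i => (2 : ℝ) ^ (j0 - u + 1) ≤ |s * f i|)) : ℝ) := by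
      norm_cast
      exact Finset.card_le_card (hsub V)
    have hwsum : ∑ i ∈ Vᶜ.filter (fun i => (2 : ℝ) ^ (h + 1) ≤ |s * f i|), w i
        ≤ ∑ i ∈ Vᶜ.filter (fun i => (2 : ℝ) ^ (j0 - u + 1) ≤ |s * f i|), w i :=
      Finset.sum_le_sum_of_subset_of_nonneg (hsub Vᶜ) (fun i _ _ => hw i)
    have h2 : (2 : ℝ) ^ h ≤ (2 : ℝ) ^ (j0 - u) := by
      apply zpow_le_zpow_right₀ (by norm_num)
      omega
    have h3 : (2 : ℝ) ^ (|((j0 - u : ℤ) : ℝ)| / 40) ≤ (2 : ℝ) ^ (|(h : ℝ)| / 40) := by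
      apply Real.rpow_le_rpow_of_exponent_le (by norm_num)
      have h4 : |((j0 - u : ℤ) : ℝ)| ≤ |(h : ℝ)| := by
        rw [← Int.cast_abs, ← Int.cast_abs]
        norm_cast
        rw [abs_of_nonpos (by omega), abs_of_nonpos (by omega)]
        omega
      linarith
    have hp3 : (0 : ℝ) < (2 : ℝ) ^ h := by positivity
    have hp4 : (0 : ℝ) < (2 : ℝ) ^ (j0 - u) := by positivity
    have h5 : β * (#(V.filter (fun i => (2 : ℝ) ^ (h + 1) ≤ |s * f i|)) : ℝ)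
          + ∑ i ∈ Vᶜ.filter (fun i => (2 : ℝ) ^ (h + 1) ≤ |s * f i|), w i
        ≤ β * (#(V.filter (fun i => (2 : ℝ) ^ (j0 - u + 1) ≤ |s * f i|)) : ℝ)
          + ∑ i ∈ Vᶜ.filter (fun i => (2 : ℝ) ^ (j0 - u + 1) ≤ |s * f i|), w i := by
      have c1 := mul_le_mul_of_nonneg_left hcard hβ.le
      linarith
    have h6 : 0 ≤ β * (#(V.filter (fun i => (2 : ℝ) ^ (h + 1) ≤ |s * f i|)) : ℝ)
          + ∑ i ∈ Vᶜ.filter (fun i => (2 : ℝ) ^ (h + 1) ≤ |s * f i|), w i :=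
      add_nonneg (mul_nonneg hβ.le (Nat.cast_nonneg _)) (hw0 _)
    refine (mul_le_mul h2 h5 h6 hp4.le).trans (h1.trans ?_)
    have h7 : 0 ≤ 4 * (2 / (1 - qq)) := by linarith
    exact mul_le_mul_of_nonneg_right (mul_le_mul_of_nonneg_left h3 h7) hal0
  · -- the lowest level
    have hN0 : 0 < N := by
      have := Finset.mem_range.mp hl
      omega
    exact key 0 (Finset.mem_range.mpr hN0) h (by push_cast; omega)
  · by_cases hc2 : u + h < j0 + N
    · obtain ⟨k, hk⟩ := Int.eq_ofNat_of_zero_le (by omega : 0 ≤ u + h - j0)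
      exact key k (Finset.mem_range.mpr (by omega)) h (by omega)
    · -- above the highest level
      have hemp : ∀ X : Finset ι, X.filter (fun i => (2 : ℝ) ^ (h + 1) ≤ |s * f i|) = ∅ := by
        intro X
        rw [Finset.filter_false_of_mem]
        intro i _
        rw [not_le, abs_mul, abs_of_pos hs0]
        have e1 : (2 : ℝ) ^ (h + 1) = s * (2 : ℝ) ^ (u + h + 1) := by
          rw [hs, ← zpow_add₀ (by norm_num : (2 : ℝ) ≠ 0)]
          congr 1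
          ring
        rw [e1]
        apply mul_lt_mul_of_pos_left _ hs0
        refine (hMN i).trans_le ?_
        apply zpow_le_zpow_right₀ (by norm_num)
        omega
      rw [hemp, hemp]
      have h7 : 0 ≤ 4 * (2 / (1 - qq)) := by linarith
      have h5 : 0 < (2 : ℝ) ^ (|(h : ℝ)| / 40) := Real.rpow_pos_of_pos (by norm_num) _
      have : 0 ≤ 4 * (2 / (1 - qq)) * (2 : ℝ) ^ (|(h : ℝ)| / 40) * (s * a l) := by positivity
      simpa using this

theorem st_level : Pool.Agent.Helper37.KF.ST_LEVEL := by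
  have hp : 0 < 1 - qq := by linarith [qq_lt]
  have hW : 2 ≤ 2 / (1 - qq) := by
    rw [le_div_iff₀ hp]
    linarith [qq_pos]
  refine ⟨4 * (2 / (1 - qq)), by linarith, ?_⟩
  intro ι _ V f ξ w β hβ hβ1 hw hξ H
  exact level ι V f ξ w β hβ hβ1 hw hξ H

end

end Pool.Agent.Helper87.KF
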