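import Pool.Agent.Helper87.KF.Level
import Pool.Agent.Helper38.ZS2.Stmts

/-!
# Level selection with weights, in the form of `ZS2`
-/

namespace Pool.Agent.Helper87.KF

open Finset Pool.Agent.Helper38.ZS Pool.Agent.Helper59.ZS
open scoped Classical

theorem st_level2 : Pool.Agent.Helper38.ZS2.ST_LEVEL2 := by
  have hp : 0 < 1 - qq := by linarith [qq_lt]
  have hW : 2 ≤ 2 / (1 - qq) := by
    rw [le_div_iff₀ hp]
    linarith [qq_pos]
  refine ⟨4 * (2 / (1 - qq)), by linarith, ?_⟩
  intro ι _ V f ξ w β hβ hβ1 hw hξ H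
  exact level ι V f ξ w β hβ hβ1 hw hξ H

end Pool.Agent.Helper87.KF
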